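import Mathlib

namespace Pool.Agent.H.MP_c4ab36_lc
open Finset Classical

theorem bs {G σ : Type} [Group G] [Finite G] (sz : σ → ℕ) (U : σ → Set G) (Γ : Set G) (B I J : ℕ)
    (hJ : Nat.card G < 2 ^ J) (s0 : σ) (h1 : (1 : G) ∈ U s0)
    (mul : ∀ s, ∀ a ∈ U s, ∀ b ∈ U s, ∃ s', sz s' ≤ sz s + 1 ∧ U s ⊆ U s' ∧ a * b ∈ U s')
    (gen : ∀ s, ∀ a ∈ Γ, ∃ s', sz s' ≤ sz s + B ∧ U s ⊆ U s' ∧ a ∈ U s')
    (inv : ∀ s, ∀ a ∈ U s, ∃ s', sz s' ≤ sz s + I ∧ U s ⊆ U s' ∧ a⁻¹ ∈ U s') :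
    ∀ g ∈ Submonoid.closure Γ, ∃ s, sz s ≤ sz s0 + J * (B + I + 2 * J + 1) + 2 * J ∧ g ∈ U s := by
  let pr : Set G → ℕ → G → Prop := fun W k g => ∃ l : List G, l.length ≤ k ∧ (∀ x ∈ l, x ∈ W) ∧ l.prod = g
  have av : ∀ (l : List G) s, 1 ∈ U s → (∀ x ∈ l, x ∈ U s) → ∃ s', sz s' ≤ sz s + l.length ∧ U s ⊆ U s' ∧ l.prod ∈ U s' := by
    intro l s h hl
    induction l with
    | nil => exact ⟨s, by simp, fun _ h => h, by simpa using h⟩
    | cons a l ih =>
      obtain ⟨s', a1, a2, a3⟩ := ih fun x hx => hl x (List.mem_cons_of_mem _ hx)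
      obtain ⟨s'', b1, b2, b3⟩ := mul s' a (a2 (hl a List.mem_cons_self)) _ a3
      exact ⟨s'', by simp; omega, a2.trans b2, by simpa using b3⟩
  have pm : ∀ W j k a b, pr W j a → pr W k b → pr W (j + k) (a * b) := by
    rintro W j k _ _ ⟨l, a1, a2, rfl⟩ ⟨l', b1, b2, rfl⟩
    exact ⟨l ++ l', by simp; omega, fun x hx => (List.mem_append.1 hx).elim (a2 x) (b2 x), by simp⟩
  have pw : ∀ W W' j k a, W ⊆ W' → j ≤ k → pr W j a → pr W' k a := by
    rintro W W' j k _ h h' ⟨l, a1, a2, rfl⟩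
    exact ⟨l, a1.trans h', fun x hx => h (a2 x hx), rfl⟩
  have p1 : ∀ W a, a ∈ W → pr W 1 a := fun W a h => ⟨[a], by simp, by simpa using h, by simp⟩
  have key : ∀ j ≤ J, ∃ s, ∃ K : Finset G, sz s ≤ sz s0 + j * (B + I + 2 * J + 1) ∧ 1 ∈ U s ∧ 1 ∈ K ∧
      (∀ k ∈ K, pr (U s) j k ∧ pr (U s) j k⁻¹) ∧
      (2 ^ j ≤ K.card ∨ ∀ a ∈ K, ∀ b ∈ K, ∀ c ∈ Γ, ∃ a' ∈ K, ∃ b' ∈ K, a⁻¹ * b * c = a'⁻¹ * b') := by
    intro j hj
    induction j with
    | zero => exact ⟨s0, {1}, by simp, h1, by simp, by simp [pr], by simp⟩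
    | succ j ih =>
      obtain ⟨s, K, a1, a2, a3, a4, a5⟩ := ih (by omega)
      by_cases hc : ∀ a ∈ K, ∀ b ∈ K, ∀ c ∈ Γ, ∃ a' ∈ K, ∃ b' ∈ K, a⁻¹ * b * c = a'⁻¹ * b'
      · exact ⟨s, K, by nlinarith, a2, a3, fun k hk => ⟨pw _ _ _ _ _ le_rfl (by omega) (a4 k hk).1,
          pw _ _ _ _ _ le_rfl (by omega) (a4 k hk).2⟩, Or.inr hc⟩
      have a5 := a5.resolve_right hc
      push Not at hc
      obtain ⟨a, ha, b, hb, c, hc, hz⟩ := hc
      obtain ⟨s1, b1, b2, b3⟩ := gen s c hc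
      obtain ⟨l, c1, c2, c3⟩ := pm _ _ _ _ _ (pw _ _ _ _ _ b2 le_rfl (pm _ _ _ _ _ (a4 a ha).2 (a4 b hb).1)) (p1 _ _ b3)
      obtain ⟨s2, d1, d2, d3⟩ := av l s1 (b2 a2) c2
      rw [c3] at d3
      obtain ⟨s3, e1, e2, e3⟩ := inv s2 _ d3
      have sb : U s ⊆ U s3 := (b2.trans d2).trans e2
      refine ⟨s3, K ∪ K.image (· * (a⁻¹ * b * c)), by nlinarith, sb a2, mem_union_left _ a3, fun k hk => ?_, Or.inl ?_⟩
      · rcases mem_union.1 hk with hk | hk
        · exact ⟨pw _ _ _ _ _ sb (by omega) (a4 k hk).1, pw _ _ _ _ _ sb (by omega) (a4 k hk).2⟩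
        · obtain ⟨k, hk2, rfl⟩ := mem_image.1 hk
          replace hk := hk2
          refine ⟨pm _ _ _ _ _ (pw _ _ _ _ _ sb le_rfl (a4 k hk).1) (p1 _ _ (e2 d3)), ?_⟩
          rw [mul_inv_rev, add_comm]
          exact pm _ _ _ _ _ (p1 _ _ e3) (pw _ _ _ _ _ sb le_rfl (a4 k hk).2)
      · rw [card_union_of_disjoint, card_image_of_injective _ (mul_left_injective _)]
        · omega
        · rw [disjoint_left]
          intro k hk hk'
          obtain ⟨k', hk2, rfl⟩ := mem_image.1 hk'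
          exact hz k' hk2 _ hk (by group)
  obtain ⟨s, K, a1, a2, a3, a4, a5⟩ := key J le_rfl
  have a5 := a5.resolve_left fun h => by
    have := Fintype.ofFinite G
    have := card_le_univ K
    rw [← Nat.card_eq_fintype_card] at this; omega
  intro g hg
  have : ∃ a ∈ K, ∃ b ∈ K, g = a⁻¹ * b := by
    induction hg using Submonoid.closure_induction_right with
    | one => exact ⟨1, a3, 1, a3, by simp⟩
    | mul_right x _ y hy ih =>
      obtain ⟨a, ha, b, hb, rfl⟩ := ih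
      exact a5 a ha b hb y hy
  obtain ⟨a, ha, b, hb, rfl⟩ := this
  obtain ⟨l, c1, c2, c3⟩ := pm _ _ _ _ _ (a4 a ha).2 (a4 b hb).1
  obtain ⟨s', d1, _, d3⟩ := av l s a2 c2
  exact ⟨s', by omega, c3 ▸ d3⟩

section green
variable {M : Type} [Monoid M] {m : ℕ}

def J (a b : M) : Prop := ∃ u v, a = u * b * v
def L (a b : M) : Prop := (∃ z, a = z * b) ∧ ∃ z, b = z * a
def R (a b : M) : Prop := (∃ z, a = b * z) ∧ ∃ z, b = a * z
theorem J.refl (a : M) : J a a := ⟨1, 1, by simp⟩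
theorem J.trans {a b c : M} : J a b → J b c → J a c := by
  rintro ⟨u, v, rfl⟩ ⟨u', v', rfl⟩; exact ⟨u * u', v' * v, by simp [mul_assoc]⟩
theorem J.left (a b : M) : J (a * b) a := ⟨1, b, by simp⟩
theorem J.right (a b : M) : J (a * b) b := ⟨a, 1, by simp⟩
theorem J.one (a : M) : J a 1 := ⟨a, 1, by simp⟩
theorem L.refl (a : M) : L a a := ⟨⟨1, by simp⟩, 1, by simp⟩
theorem L.symm {a b : M} (h : L a b) : L b a := ⟨h.2, h.1⟩
theorem L.trans {a b c : M} : L a b → L b c → L a c := by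
  rintro ⟨⟨u, h1⟩, v, h2⟩ ⟨⟨u', h3⟩, v', h4⟩
  exact ⟨⟨u * u', by rw [mul_assoc, ← h3, ← h1]⟩, v' * v, by rw [mul_assoc, ← h2, ← h4]⟩
theorem L.mul {a b : M} (c : M) : L a b → L (a * c) (b * c) := by
  rintro ⟨⟨u, h1⟩, v, h2⟩
  exact ⟨⟨u, by rw [← mul_assoc, ← h1]⟩, v, by rw [← mul_assoc, ← h2]⟩
theorem L.j {a b : M} (h : L a b) : J a b := by obtain ⟨⟨u, h⟩, _⟩ := h; exact ⟨u, 1, by simpa using h⟩
theorem R.refl (a : M) : R a a := ⟨⟨1, by simp⟩, 1, by simp⟩
theorem R.symm {a b : M} (h : R a b) : R b a := ⟨h.2, h.1⟩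
theorem R.trans {a b c : M} : R a b → R b c → R a c := by
  rintro ⟨⟨u, h1⟩, v, h2⟩ ⟨⟨u', h3⟩, v', h4⟩
  exact ⟨⟨u' * u, by rw [← mul_assoc, ← h3, ← h1]⟩, v * v', by rw [← mul_assoc, ← h2, ← h4]⟩
theorem R.j {a b : M} (h : R a b) : J a b := by obtain ⟨⟨u, h⟩, _⟩ := h; exact ⟨1, u, by simpa using h⟩

theorem stabL (hm : ∀ a : M, a ^ (m + 2) = a) {a b : M} : J b (a * b) → L (a * b) b := by
  rintro ⟨u, v, h⟩
  refine ⟨⟨a, rfl⟩, (u * a) ^ m * u, ?_⟩
  have : (u * a) ^ (m + 2) * b * v = b := by rw [hm, mul_assoc u, ← h]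
  rw [pow_succ, mul_assoc, mul_assoc, ← mul_assoc (u * a), mul_assoc u, ← h, pow_succ] at this
  simpa [mul_assoc] using this.symm
theorem stabR (hm : ∀ a : M, a ^ (m + 2) = a) {a b : M} : J a (a * b) → R (a * b) a := by
  rintro ⟨u, v, h⟩
  refine ⟨⟨b, rfl⟩, v * (b * v) ^ m, ?_⟩
  have : u * a * (b * v) ^ (m + 2) = a := by rw [hm, ← mul_assoc, mul_assoc u, ← h]
  rw [pow_succ', ← mul_assoc, ← mul_assoc, mul_assoc u, ← h, pow_succ'] at this
  simpa [mul_assoc] using this.symm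
theorem J.comm (hm : ∀ a : M, a ^ (m + 2) = a) (a b : M) : J (a * b) (b * a) :=
  ⟨a, b * (a * b) ^ m, by
    conv_lhs => rw [← hm (a * b), pow_succ', pow_succ']
    simp [mul_assoc]⟩
theorem J.mul (hm : ∀ a : M, a ^ (m + 2) = a) {x a b : M} (h1 : J x a) (h2 : J x b) : J x (a * b) := by
  obtain ⟨u, v, h1⟩ := h1
  obtain ⟨u', v', h2⟩ := h2
  have e : J x (a * (v * u') * b) := ⟨u, v' * x ^ m, by
    have : x * x = u * a * v * (u' * b * v') := by rw [← h1, ← h2]
    conv_lhs => rw [← hm x, pow_succ', pow_succ', ← mul_assoc, this]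
    simp only [mul_assoc]⟩
  exact e.trans ((J.comm hm _ _).trans (by rw [← mul_assoc]; exact (J.left _ _).trans (J.comm hm _ _)))
theorem idem (hm : ∀ a : M, a ^ (m + 2) = a) (a : M) : a ^ (m + 1) * a ^ (m + 1) = a ^ (m + 1) := by
  rw [← pow_add, show m + 1 + (m + 1) = m + 2 + m by ring, pow_add, hm, pow_succ']
theorem grp (hm : ∀ a : M, a ^ (m + 2) = a) {e s : M} (he : e * e = e) (h : J e s) : (e * s * e) ^ (m + 1) = e := by
  have h1 : J e (e * s * e) := J.mul hm (J.mul hm (J.refl e) h) (J.refl e)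
  obtain ⟨z, hz⟩ := (stabR hm (show J e (e * (s * e)) by rwa [← mul_assoc])).2
  rw [← mul_assoc e s] at hz
  have h2 : (e * s * e) ^ (m + 1) * e = (e * s * e) ^ (m + 1) := by
    rw [pow_succ, mul_assoc, mul_assoc _ e e, he]
  rw [← h2]
  nth_rw 3 [hz]
  rw [← mul_assoc, ← pow_succ, hm, ← hz]

variable [Fintype M]
noncomputable def rho (a : M) : ℕ := (univ.filter fun x => J x a).card
theorem rho_le (a : M) : rho a ≤ Fintype.card M := card_le_univ _
theorem rho_mono {a b : M} (h : J a b) : rho a ≤ rho b :=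
  card_le_card fun x hx => by simp only [mem_filter, mem_univ, true_and] at hx ⊢; exact hx.trans h
theorem rho_lt {a b : M} (h : J a b) (h' : ¬J b a) : rho a < rho b :=
  card_lt_card ⟨fun x hx => by simp only [mem_filter, mem_univ, true_and] at hx ⊢; exact hx.trans h,
    fun hh => h' (by simpa using hh (show b ∈ _ by simp [J.refl]))⟩
end green

section slp
variable {T : Type} [Monoid T]

inductive Val (A : Set T) : List T → Prop
  | nil : Val A []
  | gen {x l} : x ∈ A → Val A l → Val A (x :: l)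
  | one {l} : Val A l → Val A (1 :: l)
  | mul {x y l} : x ∈ l → y ∈ l → Val A l → Val A (x * y :: l)

def Cost (A : Set T) (N : ℕ) (x : T) : Prop := ∃ l, Val A l ∧ l.length ≤ N ∧ x ∈ l

theorem Val.append {A : Set T} {l l' : List T} (h : Val A l) (h' : Val A l') : Val A (l ++ l') := by
  induction h with
  | nil => exact h'
  | gen a _ ih => exact .gen a ih
  | one _ ih => exact .one ih
  | mul a b _ ih => exact .mul (List.mem_append_left _ a) (List.mem_append_left _ b) ih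
theorem Val.mono {A B : Set T} {l : List T} (h : Val A l) (hs : A ⊆ B) : Val B l := by
  induction h with
  | nil => exact .nil
  | gen a _ ih => exact .gen (hs a) ih
  | one _ ih => exact .one ih
  | mul a b _ ih => exact .mul a b ih
theorem Val.mem {A : Set T} {l : List T} (h : Val A l) : ∀ x ∈ l, x ∈ Submonoid.closure A := by
  induction h with
  | nil => simp
  | gen a _ ih => simpa using ⟨Submonoid.subset_closure a, ih⟩
  | one _ ih => simpa using ih
  | mul a b _ ih => simpa using ⟨mul_mem (ih _ a) (ih _ b), ih⟩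
theorem Val.pow {A : Set T} {l : List T} (h : Val A l) {x : T} (hx : x ∈ l) (k : ℕ) :
    ∃ l', Val A l' ∧ l'.length ≤ l.length + k ∧ l ⊆ l' ∧ x ^ (k + 1) ∈ l' := by
  induction k with
  | zero => exact ⟨l, h, le_rfl, fun _ h => h, by simpa using hx⟩
  | succ k ih =>
    obtain ⟨l', a, b, c, d⟩ := ih
    exact ⟨_, .mul d (c hx) a, by simp; omega, fun _ h => List.mem_cons_of_mem _ (c h), by simp [pow_succ]⟩
theorem Cost.mem {A : Set T} {N : ℕ} {x : T} : Cost A N x → x ∈ Submonoid.closure A := fun ⟨_, a, _, b⟩ => a.mem x b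
theorem Cost.le {A B : Set T} {N N' : ℕ} {x : T} (h : Cost A N x) (hs : A ⊆ B) (h' : N ≤ N') : Cost B N' x :=
  let ⟨l, a, b, c⟩ := h; ⟨l, a.mono hs, b.trans h', c⟩
theorem Cost.gen {A : Set T} {x : T} (h : x ∈ A) : Cost A 1 x := ⟨[x], .gen h .nil, by simp, by simp⟩
theorem Cost.one {A : Set T} : Cost A 1 1 := ⟨[1], .one .nil, by simp, by simp⟩
theorem Cost.mul {A : Set T} {N N' : ℕ} {x y : T} : Cost A N x → Cost A N' y → Cost A (N + N' + 1) (x * y) := by
  rintro ⟨l, a, b, c⟩ ⟨l', a', b', c'⟩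
  exact ⟨_, .mul (List.mem_append_left _ c) (List.mem_append_right _ c') (a.append a'), by simp; omega, by simp⟩
theorem Cost.pow {A : Set T} {N : ℕ} {x : T} (k : ℕ) : Cost A N x → Cost A (N + k) (x ^ (k + 1)) := by
  rintro ⟨l, a, b, c⟩
  obtain ⟨l', a', b', _, d⟩ := a.pow c k
  exact ⟨l', a', by omega, d⟩
end slp

section main
variable {M ι : Type} [Monoid M] [Fintype M] [Fintype ι] {m : ℕ}

omit [Fintype M] [Fintype ι] in
theorem above (hm : ∀ a : M, a ^ (m + 2) = a) {A : Set (ι → M)} {f : M} {c : ι} (h : ∀ a ∈ A, J f (a c)) {x : ι → M}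
    (hx : x ∈ Submonoid.closure A) : J f (x c) := by
  induction hx using Submonoid.closure_induction with
  | mem x hx => exact h x hx
  | one => exact J.one _
  | mul x y _ _ a b => exact a.mul hm b

variable (M ι) in
def Full (H F : ℕ) : Prop := ∀ (w : List (ι → M)) (C : Finset ι), (∀ c ∈ C, Fintype.card M < H + rho (w.prod c)) →
  ∃ x, Cost {a | a ∈ w} F x ∧ ∀ c ∈ C, x c = w.prod c

theorem lrep (hm : ∀ a : M, a ^ (m + 2) = a) {H F : ℕ} (hF : Full M ι H F) {A : Set (ι → M)} {f : ι → M} {C : Finset ι}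
    (hA : ∀ c ∈ C, ∀ a ∈ A, J (f c) (a c)) (hf : ∀ c ∈ C, Fintype.card M < H + 1 + rho (f c)) (u : List (ι → M)) :
    ∀ (v : List (ι → M)) (q q' : ι → M) (N : ℕ), (∀ a ∈ u, a ∈ A) → (∀ a ∈ v, a ∈ A) → u.prod * v.prod * q = f →
      (∀ c ∈ C, J (q c) (v.prod c * q c)) → (∀ c ∈ C, q' c = q c ∨ (J (q c) (f c) ∧ L (q' c) (q c))) → Cost A N q' →
      ∃ x, Cost A (N + (∑ c ∈ C, rho (q c)) * (F + 3)) x ∧ ∀ c ∈ C, L (x c) (f c) := by
  induction u using List.reverseRecOn with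
  | nil =>
    intro v q q' N _ _ e h1 h2 h3
    refine ⟨q', h3.le le_rfl (by omega), fun c hc => ?_⟩
    have : L (q' c) (q c) := (h2 c hc).elim (fun h => h ▸ L.refl _) And.right
    refine this.trans ?_
    rw [← e]; simpa using (stabL hm (h1 c hc)).symm
  | append_singleton u y ih =>
    intro v q q' N hu hv e h1 h2 h3
    have hy : y ∈ A := hu y (by simp)
    have hu' : ∀ a ∈ u, a ∈ A := fun a ha => hu a (by simp [ha])
    by_cases hc : ∀ c ∈ C, J (q c) ((y :: v).prod c * q c)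
    · exact ih (y :: v) q q' N hu' (by simpa using ⟨hy, hv⟩) (by simpa [mul_assoc] using e) hc h2 h3
    push Not at hc
    obtain ⟨c0, hc0, hc1⟩ := hc
    have fq : ∀ c, J (f c) (q c) := fun c => by rw [← e]; exact J.right _ _
    obtain ⟨v', a1, a2⟩ := hF v (C.filter fun c => ¬J (q c) (f c)) fun c hc => by
      rw [mem_filter] at hc
      have := hf c hc.1
      have := rho_lt (fq c) hc.2
      have := rho_mono ((h1 c hc.1).trans (J.left _ _))
      omega
    have a1 := a1.le (B := A) hv le_rfl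
    obtain ⟨x, b1, b2⟩ := ih [] (y * v.prod * q) (y * v' * q') _ hu' (by simp) (by simpa [mul_assoc] using e)
      (fun c _ => by simpa using J.refl _) (fun c hc => by
        by_cases h : J (q c) (f c)
        · have l1 : L (q' c) (q c) := (h2 c hc).elim (fun h => h ▸ L.refl _) And.right
          have j1 : J (f c) ((y * v.prod * q) c) := by rw [← e]; simp only [List.prod_append, List.prod_singleton, mul_assoc]; exact J.right _ _
          refine Or.inr ⟨(J.right _ _).trans h, ?_⟩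
          have l2 : L ((y * v') c * q' c) (q' c) := stabL hm (J.mul hm ((l1.j.trans h).trans
            (above hm (hA c hc) (mul_mem (Submonoid.subset_closure hy) a1.mem))) (J.refl _))
          exact (l2.trans l1).trans (stabL hm (h.trans j1)).symm
        · left
          simp [a2 c (mem_filter.2 ⟨hc, h⟩), (h2 c hc).resolve_right fun h' => h h'.1])
      (((Cost.gen hy).mul a1).mul h3)
    refine ⟨x, b1.le le_rfl ?_, b2⟩
    have : ∑ c ∈ C, rho ((y * v.prod * q) c) < ∑ c ∈ C, rho (q c) :=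
      sum_lt_sum (fun c _ => rho_mono (J.right _ _)) ⟨c0, hc0, rho_lt (J.right _ _) (by simpa using hc1)⟩
    nlinarith

theorem rrep (hm : ∀ a : M, a ^ (m + 2) = a) {H F : ℕ} (hF : Full M ι H F) {A : Set (ι → M)} {f : ι → M} {C : Finset ι}
    (hA : ∀ c ∈ C, ∀ a ∈ A, J (f c) (a c)) (hf : ∀ c ∈ C, Fintype.card M < H + 1 + rho (f c)) (u : List (ι → M)) :
    ∀ (v : List (ι → M)) (q q' : ι → M) (N : ℕ), (∀ a ∈ u, a ∈ A) → (∀ a ∈ v, a ∈ A) → q * v.prod * u.prod = f →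
      (∀ c ∈ C, J (q c) (q c * v.prod c)) → (∀ c ∈ C, q' c = q c ∨ (J (q c) (f c) ∧ R (q' c) (q c))) → Cost A N q' →
      ∃ x, Cost A (N + (∑ c ∈ C, rho (q c)) * (F + 3)) x ∧ ∀ c ∈ C, R (x c) (f c) := by
  induction u with
  | nil =>
    intro v q q' N _ _ e h1 h2 h3
    refine ⟨q', h3.le le_rfl (by omega), fun c hc => ?_⟩
    have : R (q' c) (q c) := (h2 c hc).elim (fun h => h ▸ R.refl _) And.right
    refine this.trans ?_
    rw [← e]; simpa using (stabR hm (h1 c hc)).symm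
  | cons y u ih =>
    intro v q q' N hu hv e h1 h2 h3
    have hy : y ∈ A := hu y (by simp)
    have hu' : ∀ a ∈ u, a ∈ A := fun a ha => hu a (by simp [ha])
    by_cases hc : ∀ c ∈ C, J (q c) (q c * (v ++ [y]).prod c)
    · exact ih (v ++ [y]) q q' N hu' (by simpa [or_imp, forall_and] using ⟨hv, hy⟩) (by simpa [mul_assoc] using e) hc h2 h3
    push Not at hc
    obtain ⟨c0, hc0, hc1⟩ := hc
    have fq : ∀ c, J (f c) (q c) := fun c => by rw [← e, mul_assoc]; exact J.left _ _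
    obtain ⟨v', a1, a2⟩ := hF v (C.filter fun c => ¬J (q c) (f c)) fun c hc => by
      rw [mem_filter] at hc
      have := hf c hc.1
      have := rho_lt (fq c) hc.2
      have := rho_mono ((h1 c hc.1).trans (J.right _ _))
      omega
    have a1 := a1.le (B := A) hv le_rfl
    obtain ⟨x, b1, b2⟩ := ih [] (q * (v.prod * y)) (q' * (v' * y)) _ hu' (by simp) (by simpa [mul_assoc] using e)
      (fun c _ => by simpa using J.refl _) (fun c hc => by
        by_cases h : J (q c) (f c)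
        · have l1 : R (q' c) (q c) := (h2 c hc).elim (fun h => h ▸ R.refl _) And.right
          have j1 : J (f c) ((q * (v.prod * y)) c) := by
            rw [← e, List.prod_cons, ← mul_assoc, mul_assoc q]; exact J.left _ _
          refine Or.inr ⟨(J.left _ _).trans h, ?_⟩
          have l2 : R (q' c * (v' * y) c) (q' c) := stabR hm (J.mul hm (J.refl _) ((l1.j.trans h).trans
            (above hm (hA c hc) (mul_mem a1.mem (Submonoid.subset_closure hy)))))
          exact (l2.trans l1).trans (stabR hm (h.trans j1)).symm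
        · left
          simp [a2 c (mem_filter.2 ⟨hc, h⟩), (h2 c hc).resolve_right fun h' => h h'.1])
      (h3.mul (a1.mul (Cost.gen hy)))
    refine ⟨x, b1.le le_rfl ?_, b2⟩
    have : ∑ c ∈ C, rho ((q * (v.prod * y)) c) < ∑ c ∈ C, rho (q c) :=
      sum_lt_sum (fun c _ => rho_mono (J.left _ _)) ⟨c0, hc0, rho_lt (J.left _ _) (by simpa using hc1)⟩
    nlinarith
end main

end Pool.Agent.H.MP_c4ab36_lc
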