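import Pool.Agent.H.MP_c4ab36_lc.A

namespace Pool.Agent.H.MP_c4ab36_lc
open Finset Classical

variable {M ι : Type} [Monoid M] [Fintype M] [Fintype ι] {m : ℕ}

def nxt (k m n F : ℕ) : ℕ :=
  (n * k + 1) * (3 * (n * k * (F + 3)) + 4 * m + 2 * (n * k) + 20) + 2 * (n * k) + 3 * (n * k * (F + 3)) + 2 * m + 20

theorem step (hm : ∀ a : M, a ^ (m + 2) = a) {H F : ℕ} (hF : Full M ι H F) :
    Full M ι (H + 1) (nxt (Fintype.card M) m (Fintype.card ι) F) := by
  intro w C hw
  set A : Set (ι → M) := {a | a ∈ w} with hAdef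
  set P := Fintype.card ι * Fintype.card M * (F + 3) with hP
  have hA : ∀ c ∈ C, ∀ a ∈ A, J (w.prod c) (a c) := fun c _ a ha => by
    obtain ⟨l1, l2, rfl⟩ := List.append_of_mem ha
    exact ⟨l1.prod c, l2.prod c, by simp [mul_assoc]⟩
  have bd : (∑ c ∈ C, rho ((1 : ι → M) c)) * (F + 3) ≤ P := Nat.mul_le_mul_right _ <|
    (sum_le_card_nsmul C _ _ fun c _ => rho_le _).trans (Nat.mul_le_mul_right _ (card_le_univ C))
  obtain ⟨x, x1, x2⟩ := rrep hm hF hA hw w [] 1 1 1 (fun _ h => h) (by simp) (by simp) (by simp [J.refl]) (by simp) Cost.one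
  set e := x ^ (m + 1) with he
  have ce : Cost A (P + m + 1) e := (x1.pow m).le le_rfl (by omega)
  have ee : e * e = e := funext fun c => idem hm (x c)
  have ew : ∀ c ∈ C, e c * w.prod c = w.prod c := fun c hc => by
    obtain ⟨z, hz⟩ := (x2 c hc).2
    rw [hz, ← mul_assoc, he, Pi.pow_apply, ← pow_succ, hm]
  have je : ∀ c ∈ C, J (e c) (w.prod c) := fun c hc => by
    rw [he, Pi.pow_apply, pow_succ]; exact (J.right _ _).trans (x2 c hc).j
  have hr : ∀ s ∈ Submonoid.closure A, ∃ r, Cost A (2 * P + m + 3) r ∧ e * r = r ∧ ∀ c ∈ C, L (r c) ((e * s) c) := by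
    intro s hs
    obtain ⟨u, hu, hu'⟩ := Submonoid.exists_list_of_mem_closure (mul_mem ce.mem hs)
    obtain ⟨y, y1, y2⟩ := lrep hm hF (A := A) (f := e * s) (C := C)
      (fun c hc a ha => (J.left _ _).trans ((je c hc).trans (hA c hc a ha)))
      (fun c hc => (hw c hc).trans_le (Nat.add_le_add_left (rho_mono (above hm (hA c hc) (mul_mem ce.mem hs))) _))
      u [] 1 1 1 hu (by simp) (by simpa using hu') (by simp [J.refl]) (by simp) Cost.one
    refine ⟨e * y, (ce.mul y1).le le_rfl (by omega), by rw [← mul_assoc, ee], fun c hc => L.trans ?_ (y2 c hc)⟩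
    exact stabL hm (J.mul hm ((y2 c hc).j.trans (J.left _ _)) (J.refl _))
  let res : (ι → M) →* (C → M) := ⟨⟨fun x c => x c, rfl⟩, fun _ _ => rfl⟩
  let G := {g : C → M // ∃ s ∈ Submonoid.closure A, g = res (e * s * e)}
  have gp : ∀ g : G, g.1 ^ (m + 1) = res e := by
    rintro ⟨_, s, hs, rfl⟩
    exact funext fun c => grp hm (congrFun ee c) (above hm (fun a ha => (je c c.2).trans (hA c c.2 a ha)) hs)
  have cl : ∀ a b : G, ∃ s ∈ Submonoid.closure A, a.1 * b.1 = res (e * s * e) := by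
    rintro ⟨_, s, hs, rfl⟩ ⟨_, t, ht, rfl⟩
    exact ⟨s * e * e * t, mul_mem (mul_mem (mul_mem hs ce.mem) ce.mem) ht, by rw [← map_mul]; simp [mul_assoc]⟩
  have clp : ∀ (a : G) k, ∃ s ∈ Submonoid.closure A, a.1 ^ (k + 1) = res (e * s * e) := fun a k => by
    induction k with
    | zero => simpa using a.2
    | succ k ih => rw [pow_succ]; exact cl ⟨_, ih⟩ a
  let _ : Mul G := ⟨fun a b => ⟨a.1 * b.1, cl a b⟩⟩
  let _ : One G := ⟨⟨res e, 1, one_mem _, by rw [mul_one, ee]⟩⟩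
  let _ : Inv G := ⟨fun a => ⟨a.1 ^ (2 * m + 1), clp a _⟩⟩
  have i1 : ∀ a : G, a.1 ^ (2 * m + 1) * a.1 = res e := fun a => by
    rw [← pow_succ, show 2 * m + 1 + 1 = (m + 1) + (m + 1) by ring, pow_add, gp, ← map_mul, ee]
  let _ : Group G := Group.ofLeftAxioms (fun a b c => Subtype.ext (mul_assoc a.1 b.1 c.1))
    (by rintro ⟨_, s, hs, rfl⟩; exact Subtype.ext (show res e * res _ = res _ by rw [← map_mul, ← mul_assoc, ← mul_assoc, ee]))
    (fun a => Subtype.ext (i1 a))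
  let Γ : Set G := {g | ∃ x, Cost A (3 * P + 2 * m + 8) x ∧ res x = g.1}
  have star : ∀ t t', Cost A (2 * P + m + 5) t → Cost A (2 * P + m + 5) t' → e * t = t → e * t' = t' →
      (∀ c ∈ C, L (t c) (t' c)) → ∃ h ∈ Submonoid.closure Γ, res t = h.1 * res t' := by
    intro t t' c1 c2 e1 e2 hl
    let g : G := ⟨res (e * t * e), t, c1.mem, rfl⟩
    let g' : G := ⟨res (e * t' * e), t', c2.mem, rfl⟩
    have m1 : g ∈ Γ := ⟨t * e, (c1.mul ce).le le_rfl (by omega), by simp only [g, e1]⟩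
    have m2 : g' ∈ Γ := ⟨t' * e, (c2.mul ce).le le_rfl (by omega), by simp only [g', e2]⟩
    have m3 : g'⁻¹ ∈ Submonoid.closure Γ := by
      have : g'⁻¹ = g' ^ (orderOf g' - 1) := inv_eq_of_mul_eq_one_left (by
        rw [← pow_succ, Nat.sub_add_cancel (orderOf_pos g'), pow_orderOf_eq_one])
      rw [this]; exact pow_mem (Submonoid.subset_closure m2) _
    refine ⟨g * g'⁻¹, mul_mem (Submonoid.subset_closure m1) m3, funext fun c => ?_⟩
    have h1 : g'.1 * (g'⁻¹).1 = res e := congrArg Subtype.val (mul_inv_cancel g')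
    have h2 := congrFun h1 c
    obtain ⟨z, hz⟩ := (hl c c.2).1
    change t c = (e * t * e) c * (g'⁻¹).1 c * t' c
    change (e * t' * e) c * (g'⁻¹).1 c = e c at h2
    rw [e2] at h2
    rw [e1, Pi.mul_apply, hz, mul_assoc z, mul_assoc z, ← Pi.mul_apply, h2, mul_assoc, ← Pi.mul_apply, e2]
  have all : ∀ u : List (ι → M), (∀ a ∈ u, a ∈ A) → ∃ r, Cost A (2 * P + m + 3) r ∧ e * r = r ∧
      (∀ c ∈ C, L (r c) ((e * u.prod) c)) ∧ ∃ h ∈ Submonoid.closure Γ, res (e * u.prod) = h.1 * res r := by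
    intro u hu
    induction u using List.reverseRecOn with
    | nil =>
      obtain ⟨r, r1, r2, r3⟩ := hr 1 (one_mem _)
      refine ⟨r, r1, r2, r3, ?_⟩
      simp only [List.prod_nil, mul_one] at r3 ⊢
      exact star e r (ce.le le_rfl (by omega)) (r1.le le_rfl (by omega)) ee r2 fun c hc => (r3 c hc).symm
    | append_singleton u a ih =>
      obtain ⟨r, r1, r2, r3, h, h1, h2⟩ := ih fun a ha => hu a (by simp [ha])
      obtain ⟨r', s1, s2, s3⟩ := hr (u ++ [a]).prod (Submonoid.list_prod_mem _ fun x hx => Submonoid.subset_closure (hu x hx))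
      refine ⟨r', s1, s2, s3, ?_⟩
      simp only [List.prod_append, List.prod_singleton, ← mul_assoc] at s3 ⊢
      obtain ⟨h', k1, k2⟩ := star (r * a) r' (r1.mul (Cost.gen (hu a (by simp)))) (s1.le le_rfl (by omega))
        (by rw [← mul_assoc, r2]) s2 fun c hc => ((r3 c hc).mul (a c)).trans (s3 c hc).symm
      exact ⟨h * h', mul_mem h1 k1, by rw [map_mul, h2, mul_assoc, ← map_mul, k2, ← mul_assoc]; rfl⟩
  obtain ⟨r, r1, -, -, h, h1, h2⟩ := all w fun _ h => h
  obtain ⟨l0, l1, l2, l3⟩ := ce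
  have hJ : Nat.card G < 2 ^ (Fintype.card ι * Fintype.card M + 1) := by
    refine (Finite.card_subtype_le _).trans_lt ?_
    rw [Nat.card_eq_fintype_card, Fintype.card_fun, Fintype.card_coe, pow_succ, mul_comm (Fintype.card ι), pow_mul]
    have h1 : Fintype.card M ^ C.card ≤ (2 ^ Fintype.card M) ^ Fintype.card ι :=
      (Nat.pow_le_pow_left Nat.lt_two_pow_self.le _).trans (Nat.pow_le_pow_right (by positivity) (card_le_univ C))
    have : 0 < (2 ^ Fintype.card M) ^ Fintype.card ι := by positivity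
    omega
  obtain ⟨s, s1, y, s2, s3⟩ := bs (σ := {l // Val A l}) (fun s => s.1.length) (fun s => {g : G | ∃ x ∈ s.1, res x = g.1}) Γ
    (3 * P + 2 * m + 8) (2 * m) _ hJ ⟨l0, l1⟩ ⟨e, l3, rfl⟩
    (by
      rintro s a ⟨x, a1, a2⟩ b ⟨y, b1, b2⟩
      exact ⟨⟨_, .mul a1 b1 s.2⟩, by simp, fun g ⟨z, c1, c2⟩ => ⟨z, List.mem_cons_of_mem _ c1, c2⟩,
        x * y, List.mem_cons_self, by rw [map_mul, a2, b2]; rfl⟩)
    (by
      rintro s a ⟨x, ⟨l, a1, a2, a3⟩, a4⟩
      exact ⟨⟨_, a1.append s.2⟩, by simp; omega, fun g ⟨z, c1, c2⟩ => ⟨z, List.mem_append_right _ c1, c2⟩,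
        x, List.mem_append_left _ a3, a4⟩)
    (by
      rintro s a ⟨x, a1, a2⟩
      obtain ⟨l, b1, b2, b3, b4⟩ := s.2.pow a1 (2 * m)
      exact ⟨⟨l, b1⟩, b2, fun g ⟨z, c1, c2⟩ => ⟨z, b3 c1, c2⟩, _, b4, by rw [map_pow, a2]; rfl⟩) h h1
  refine ⟨y * r, (Cost.mul ⟨_, s.2, s1, s2⟩ r1).le le_rfl ?_, fun c hc => ?_⟩
  · simp only [nxt, ← hP]; nlinarith
  · have := congrFun h2 ⟨c, hc⟩
    rw [← s3] at this
    rw [← ew c hc]; exact this.symm

def bnd (k m n : ℕ) : ℕ → ℕ
  | 0 => 1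
  | H + 1 => nxt k m n (bnd k m n H)

theorem full (hm : ∀ a : M, a ^ (m + 2) = a) (H : ℕ) : Full M ι H (bnd (Fintype.card M) m (Fintype.card ι) H) := by
  induction H with
  | zero => exact fun w C h => ⟨1, Cost.one, fun c hc => by have := h c hc; have := rho_le (w.prod c); omega⟩
  | succ H ih => exact step hm ih

theorem short (hm : ∀ a : M, a ^ (m + 2) = a) {A : Set (ι → M)} {x : ι → M} (hx : x ∈ Submonoid.closure A) :
    Cost A (bnd (Fintype.card M) m (Fintype.card ι) (Fintype.card M + 1)) x := by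
  obtain ⟨u, hu, rfl⟩ := Submonoid.exists_list_of_mem_closure hx
  obtain ⟨y, a, b⟩ := full hm (Fintype.card M + 1) u univ fun c _ => by omega
  obtain rfl : y = u.prod := funext fun c => b c (mem_univ c)
  exact a.le hu le_rfl

omit [Fintype ι] in
theorem expo (h : ∀ a : M, ∃ x, a = a * x * a ∧ a * x = x * a) : ∃ m, ∀ a : M, a ^ (m + 2) = a := by
  have : ∀ a : M, ∃ d, a ^ (d + 2) = a := fun a => by
    obtain ⟨x, h1, h2⟩ := h a
    have k : ∀ i, x ^ i * a ^ (i + 1) = a := fun i => by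
      induction i with
      | zero => simp
      | succ i ih => rw [pow_succ x, pow_succ' a, pow_succ' a, mul_assoc, ← mul_assoc x, ← mul_assoc (x * a), ← h2,
          mul_assoc a x a, ← h2, ← mul_assoc a a x, mul_assoc a a x, h2, ← mul_assoc a x a, ← h1, ← pow_succ', ih]
    obtain ⟨i, j, hij, e⟩ := Finite.exists_ne_map_eq_of_infinite fun i : ℕ => a ^ i
    wlog hl : i < j generalizing i j
    · exact this j i hij.symm e.symm (by omega)
    obtain ⟨d, rfl⟩ := Nat.exists_eq_add_of_lt hl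
    refine ⟨d, ?_⟩
    have := k i
    rw [pow_succ a, e, ← pow_succ, show i + d + 1 + 1 = i + 1 + (d + 1) by ring, pow_add, ← mul_assoc, k i] at this
    rw [pow_succ', this]
  choose d hd using this
  have k : ∀ (a : M) t, a ^ ((d a + 1) * t + 1) = a := fun a t => by
    induction t with
    | zero => simp
    | succ t ih => rw [show (d a + 1) * (t + 1) + 1 = (d a + 1) * t + 1 + (d a + 1) by ring, pow_add, ih, ← pow_succ', hd]
  have hp : 0 < ∏ a, (d a + 1) := prod_pos fun _ _ => Nat.succ_pos _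
  refine ⟨∏ a, (d a + 1) - 1, fun a => ?_⟩
  obtain ⟨t, ht⟩ := dvd_prod_of_mem (fun a => d a + 1) (mem_univ a)
  rw [show ∏ a, (d a + 1) - 1 + 2 = ∏ a, (d a + 1) + 1 by omega, ht, k]

end Pool.Agent.H.MP_c4ab36_lc
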